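import Mathlib
import Pool.Agent.H14.Leonard

set_option autoImplicit false

namespace Pool.Agent.Results.MP_23ff89_al.Counter

open Pool.Agent.H14.Leonard in
theorem result : ∃ X Y Z : (Fin 3 → ℚ) →ₗ[ℚ] (Fin 3 → ℚ),
    Pair X Y ∧ Pair X Z ∧ Pair Y Z ∧ ¬ Triple X Y Z :=
  ⟨_, _, _, pAB, pAC, pBC, fun h => not_good h.1⟩

end Pool.Agent.Results.MP_23ff89_al.Counter
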